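import Pool.Agent.N355.EH.Final

set_option autoImplicit false

/-!
# MP_3885fd_co: polynomial does not imply effective, for any nontrivial finite group

Let `G` be a finite group with `n ≥ 2` elements. Let `S` be the lattice simplex with `n (n + 1)`
vertices whose box group is generated by `(1/n, …, 1/n)` (its `h*`-polynomial is
`∑_{i<n} t^{(n+1) i}`), with trivial action, and let `F = Δ_{n-1} × [0,1]`, where `G` permutes the
vertices of the simplex `Δ_{n-1}` regularly. The `H*`-series of `F` at an element of order `k` is
`(1 + (n-1) t^k) (1-t) / (1-t^k)`, which is not a polynomial for `k ≥ 2`. The join of `S` and `F`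
is a lattice polytope of dimension `n² + 2n`, whose series at `g` is the product of the two. This
is a polynomial, because `(1-t) ∑_{i<n} t^{(n+1) i}` is divisible by `1 - t^k` for every `k ∣ n`.
For an element `g ≠ 1` of order `k`, the value of `H*_k` at `1` is `0`, and at `g` it is `n`, so
`H*_k` is not the character of a representation.
-/

namespace Pool.Agent.Results.MP_3885fd_co.EveryNontrivialGroup

open Pool.Agent.N355.EH (InvPolytope)

/-- For every nontrivial finite group `G` there is a lattice polytope of dimension `|G|² + 2 |G|`
with a faithful action of `G` by affine lattice automorphisms, whose equivariant `H*`-series is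
polynomial but not effective. -/
theorem result (G : Type) [Group G] [Finite G] [Nontrivial G] :
    ∃ (ι : Type) (_ : Fintype ι) (_ : DecidableEq ι) (P : InvPolytope G ι),
      Fintype.card ι = Nat.card G ^ 2 + 2 * Nat.card G ∧ Function.Injective P.act ∧
        P.IsPolynomial ∧ ¬ P.IsEffective :=
  Pool.Agent.N355.EH.main G

end Pool.Agent.Results.MP_3885fd_co.EveryNontrivialGroup
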